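import Pool.Agent.Run7.h378.PS.Asm

/-!
# Strict positivity does not suffice for any-dimensional sums of squares (Q2)

`f = p₂ (p₄²p₁₀ + p₆³ - 2p₄p₆p₈ + p₈p₁₀ - p₆p₁₂) + p₂₀` is strictly positive on the unit sphere of `ℓ²`, but
for every `k` there is an `n` such that `(p₂⁽ⁿ⁾)ᵏ f⁽ⁿ⁾` is not a sum of squares of polynomials.

A symmetric function `g(p₁, p₂, …)` is given by a polynomial `g` in variables indexed by `ℕ`; the variable with
index `j` stands for the power sum `p_j = ∑ X_i ^ j`. The definitions are in `Pool/Agent/Run7/h378/PS/Stm.lean`: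
`SOS P` (`P` is a sum of squares of polynomials), `trunc g n` (the truncation: `g` evaluated at the power sums of
the `n` variables `X_0, …, X_(n-1)`) and `val g x = g(p₁(x), p₂(x), …)` for a sequence `x`.
-/

set_option autoImplicit false

namespace Pool.Agent.Results.MP_2f3180_ag.SquaresFail

open MvPolynomial Run7.h378.PS

/-- The answer to Q2 is no. There are `d ≥ 1` and `f ∈ ℝ[p₂, …, p_{2d}]`, homogeneous of degree `2d`, with
`f(x) > 0` for all square summable sequences `x` with `p₂(x) = 1`, such that for every `k` there is an `n` with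
`(p₂⁽ⁿ⁾)ᵏ f⁽ⁿ⁾` not a sum of squares. -/
theorem result : ∃ (d : ℕ) (g : MvPolynomial ℕ ℝ), 1 ≤ d ∧
    IsWeightedHomogeneous (fun j : ℕ => j) g (2 * d) ∧ (∀ j ∈ g.vars, 2 ≤ j ∧ j ≤ 2 * d) ∧
    (∀ x : ℕ → ℝ, Summable (fun i => x i ^ 2) → ∑' i, x i ^ 2 = 1 → 0 < val g x) ∧
    ∀ k : ℕ, ∃ n : ℕ, ¬ SOS ((∑ i : Fin n, (X i : MvPolynomial (Fin n) ℝ) ^ 2) ^ k * trunc g n) :=
  main

end Pool.Agent.Results.MP_2f3180_ag.SquaresFail
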